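import Pool.Agent.H474.SHP.Main

/-!
# Distinct zeros and poles of Artin L-functions

Let `F/ℚ` be an arbitrary finite Galois extension, let `χ_1, …, χ_k` be irreducible characters of
its group and let `t_1, …, t_k` be real numbers such that the pairs `(χ_i, t_i)` are different.  Let
`L_i` be the meromorphic continuation of the Artin L-function `L(s, χ_i, F/ℚ)`.  For every `ε > 0`
there is `T₀` such that for all `T ≥ T₀` and for all real numbers `λ_1, …, λ_k`, not all zero, with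
`D = ∑ λ_i χ_i(1)`, at least

`(3 D² / (3 D² + ∑ λ_i²) - ε) (T/2π) log T`

points `s` with `1/2 ≤ Re s < 1`, `T < Im s ≤ 2T` satisfy `∑ λ_i ord_{s + i t_i} L_i ≠ 0`.

In particular, in `1/2 ≤ Re s < 1`, `T < Im s ≤ 2T` (without any hypothesis, and points are counted
without multiplicity):

* `L(s, χ)`, `χ(1) = d`, has at least `(1 - 1/(3d² + 1) - ε) (T/2π) log T` distinct zeros and poles;
* `ζ_F(s)` has at least `(1 - 1/(3[F:ℚ] + 1) - ε) (T/2π) log T` distinct zeros (`λ_χ = χ(1)`);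
* `k` different `L(s + i t_i, χ_i)` have together at least
  `(1 - 1/(3 ∑ χ_i(1)² + 1) - ε) (T/2π) log T` distinct zeros and poles (`λ_i = χ_i(1)`).

Because all zeros come in pairs `ρ`, `1 - ρ̄` only the right half of the strip is counted.
-/

open NumberField Filter Complex
open Pool.Agent.Q92.AR (artinL)
open Pool.Agent.H541R3.ART (Irr)

namespace Pool.Agent.Results.MP_347b49_nt.DistinctZerosArtin

/-- `L` is the meromorphic continuation to `ℂ` of the Artin L-function of the character `χ` of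
`Gal(F/ℚ)` (without the Euler factors at the primes which ramify in `F`). -/
def IsArtinL (F : Type) [Field F] [NumberField F] (χ : (F ≃ₐ[ℚ] F) → ℂ) (L : ℂ → ℂ) : Prop :=
  MeromorphicOn L Set.univ ∧ ∀ s : ℂ, 1 < s.re → L s = artinL F χ s

/-- The order of the meromorphic function `L` at `s`: positive at zeros, negative at poles. -/
noncomputable def ord (L : ℂ → ℂ) (s : ℂ) : ℤ := (meromorphicOrderAt L s).untop₀

/-- **Main theorem.** -/
theorem result (F : Type) [Field F] [NumberField F] [IsGalois ℚ F]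
    (k : ℕ) (χ : Fin k → (F ≃ₐ[ℚ] F) → ℂ) (t : Fin k → ℝ) (L : Fin k → ℂ → ℂ)
    (hχ : ∀ i, χ i ∈ Irr (F ≃ₐ[ℚ] F)) (hne : ∀ i j, i ≠ j → χ i ≠ χ j ∨ t i ≠ t j)
    (hL : ∀ i, IsArtinL F (χ i) (L i)) (ε : ℝ) (hε : 0 < ε) :
    ∃ T₀ : ℝ, ∀ T : ℝ, T₀ ≤ T → ∀ lam : Fin k → ℝ, lam ≠ 0 →
      ∀ D : ℝ, (D : ℂ) = ∑ i, (lam i : ℂ) * χ i 1 →
        (3 * D ^ 2 / (3 * D ^ 2 + ∑ i, lam i ^ 2) - ε) * (T / (2 * Real.pi) * Real.log T) ≤
          ({s : ℂ | 1 / 2 ≤ s.re ∧ s.re < 1 ∧ T < s.im ∧ s.im ≤ 2 * T ∧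
            ∑ i, lam i * (ord (L i) (s + I * t i) : ℝ) ≠ 0}.ncard : ℝ) := by
  obtain ⟨T₀, h⟩ := eventually_atTop.1 (Pool.Agent.H474.SHP.sharp χ hχ t hne L hL hε)
  refine ⟨T₀, fun T hT lam hlam D hD => ?_⟩
  have hdeg : Pool.Agent.H474.SHP.deg χ lam = D := by
    unfold Pool.Agent.H474.SHP.deg
    rw [← hD, Complex.ofReal_re]
  have h1 := (h T hT lam hlam).1
  rw [hdeg] at h1
  have hR0 : 0 < ∑ i, lam i ^ 2 := by
    obtain ⟨i, hi⟩ := Function.ne_iff.1 hlam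
    have hi' : lam i ≠ 0 := hi
    exact Finset.sum_pos' (fun _ _ => sq_nonneg _) ⟨i, Finset.mem_univ i, by positivity⟩
  have e : 3 * D ^ 2 / (3 * D ^ 2 + ∑ i, lam i ^ 2) = D ^ 2 / (D ^ 2 + (∑ i, lam i ^ 2) / 3) := by
    rw [div_eq_div_iff (by positivity) (by positivity)]
    ring
  rw [e]
  refine h1.trans (le_of_eq ?_)
  congr 2
  ext s
  constructor
  · rintro ⟨⟨g1, g2, g3, g4⟩, g5⟩
    exact ⟨g1, g2, g3, g4, g5⟩
  · rintro ⟨g1, g2, g3, g4, g5⟩
    exact ⟨⟨g1, g2, g3, g4⟩, g5⟩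

end Pool.Agent.Results.MP_347b49_nt.DistinctZerosArtin
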