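import Pool.Agent.H293.EXN.Fam2

set_option autoImplicit false

/-!
# Dedekind zeta functions of finitely many number fields: independent ordinates, holomorphic quotients and central
orders from limits of sums over prime ideals

No hypothesis is assumed.  `E i` are finitely many number fields, for example the subfields of a Galois extension `M/ℚ`
(then every rational valued character of `Gal(M/ℚ)` has a multiple whose Artin L-function is a product
`∏ ζ_{E i}^(r i)`).  For `a > 1/2` let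
`F_a(x) = ∑_{N𝔭^k ≤ x} log N𝔭 · N𝔭^(-k/2) (N𝔭^k/x)^a log(x/N𝔭^k) - √x/(a+1/2)²` for one field, and
`W_a = (1/a) (ξ'/ξ)(1/2 + a)`; for the product with the exponents `r i` these are added up.
-/

namespace Pool.Agent.Results.MP_347b49_nt.LowerAndUpperLimits

open Filter Topology Set Complex NumberField IsDedekindDomain

/-- the lower limit for `x → ∞` -/
noncomputable def low (G : ℝ → ℝ) : EReal := liminf (fun x : ℝ => (G x : EReal)) atTop

/-- the upper limit for `x → ∞` -/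
noncomputable def upp (G : ℝ → ℝ) : EReal := limsup (fun x : ℝ => (G x : EReal)) atTop

/-- linear independence of a set of real numbers over `ℚ` -/
def Independent (O : Set ℝ) : Prop := LinearIndependent ℚ (fun γ : O => (γ : ℝ))

/-- `∑_{γ ∈ S} n_γ γ = 0` for a finite subset `S` of `O` and integers `n_γ` -/
def Relation (O : Set ℝ) (S : Finset ℝ) (n : ℝ → ℤ) : Prop := (∀ γ ∈ S, γ ∈ O) ∧ ∑ γ ∈ S, (n γ : ℝ) * γ = 0

section field
variable (M : Type) [Field M] [NumberField M]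

/-- the completed zeta function times `s (s - 1)`, for `Re s > 1` -/
noncomputable def xi (s : ℂ) : ℂ :=
  s * (s - 1) * ((|(discr M : ℝ)| : ℝ) : ℂ) ^ (s / 2) * Gammaℝ s ^ InfinitePlace.nrRealPlaces M *
    Gammaℂ s ^ InfinitePlace.nrComplexPlaces M * dedekindZeta M s

/-- `W_a = (1/a) (ξ'/ξ)(1/2 + a)` for one field -/
noncomputable def W1 (a : ℝ) : ℝ := (logDeriv (xi M) (1 / 2 + a)).re / a

/-- `F_a(x)` for one field, a sum over the pairs `(𝔭, k)`, `k ≥ 1`, with `N𝔭^k ≤ x`, minus the main term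
(`p.2 = k - 1`) -/
noncomputable def F1 (a x : ℝ) : ℝ :=
  (∑ᶠ p ∈ {p : HeightOneSpectrum (𝓞 M) × ℕ | ((Ideal.absNorm p.1.asIdeal : ℝ) ^ (p.2 + 1)) ≤ x},
    Real.log (Ideal.absNorm p.1.asIdeal) / Real.sqrt ((Ideal.absNorm p.1.asIdeal : ℝ) ^ (p.2 + 1)) *
      ((Ideal.absNorm p.1.asIdeal : ℝ) ^ (p.2 + 1) / x) ^ a * Real.log (x / (Ideal.absNorm p.1.asIdeal : ℝ) ^ (p.2 + 1))) -
    Real.sqrt x / (a + 1 / 2) ^ 2

end field

section family
variable {ι : Type} [Fintype ι] (E : ι → Type) [∀ i, Field (E i)] [∀ i, NumberField (E i)]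

/-- `Z i` is the meromorphic continuation of the Dedekind zeta function of `E i` -/
def IsZeta (Z : ι → ℂ → ℂ) : Prop :=
  ∀ i, MeromorphicOn (Z i) univ ∧ ∀ s : ℂ, 1 < s.re → Z i s = dedekindZeta (E i) s

/-- the Riemann hypothesis: no zeros with `Re s > 1/2` -/
def RH (Z : ι → ℂ → ℂ) : Prop := ∀ i, ∀ s : ℂ, 1 / 2 < s.re → ¬ 0 < meromorphicOrderAt (Z i) s

/-- the positive ordinates of the zeros on the critical line -/
def Ordinates (Z : ι → ℂ → ℂ) : Set ℝ := {γ : ℝ | 0 < γ ∧ ∃ i, 0 < meromorphicOrderAt (Z i) (1 / 2 + (γ : ℂ) * I)}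

/-- the order at `s` of the product `∏ Z_i^(r i)` -/
noncomputable def n (Z : ι → ℂ → ℂ) (r : ι → ℤ) (s : ℂ) : ℤ := ∑ i, r i * (meromorphicOrderAt (Z i) s).untop₀

/-- the product `∏ Z_i^(r i)` has no pole with `Re s > 0`, `s ≠ 1` -/
def Holomorphic (Z : ι → ℂ → ℂ) (r : ι → ℤ) : Prop := ∀ s : ℂ, 0 < s.re → s ≠ 1 → 0 ≤ n Z r s

/-- the amplitude: the sum of `|n(1/2+iγ)|/(a²+γ²)` over all real `γ ≠ 0` -/
noncomputable def A (Z : ι → ℂ → ℂ) (r : ι → ℤ) (a : ℝ) : ℝ :=
  ∑' γ : ℝ, if γ = 0 then 0 else |(n Z r (1 / 2 + (γ : ℂ) * I) : ℝ)| / (a ^ 2 + γ ^ 2)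

/-- the sum over prime ideals with the exponents `r` -/
noncomputable def F (r : ι → ℤ) (a x : ℝ) : ℝ := ∑ i, (r i : ℝ) * F1 (E i) a x

/-- the constant with the exponents `r` -/
noncomputable def W (r : ι → ℤ) (a : ℝ) : ℝ := ∑ i, (r i : ℝ) * W1 (E i) a

end family

section aux

open Pool.Agent.H293.EX Pool.Agent.H293.EXN
open Pool.Agent.Q253.NF (Dat IsDed)

variable {M : Type} [Field M] [NumberField M]

/-- finitely many prime powers of bounded norm -/
lemma fin_norm (x : ℝ) :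
    {p : HeightOneSpectrum (𝓞 M) × ℕ | ((Ideal.absNorm p.1.asIdeal : ℝ) ^ (p.2 + 1)) ≤ x}.Finite := by
  -- the terms of a convergent series with positive terms which are bounded below
  have h1 := (hgE (E := M)).2.2 1 (by norm_num)
  rcases le_or_gt x 0 with hx | hx
  · refine Set.Finite.subset Set.finite_empty fun p hp => ?_
    have h2 : (0 : ℝ) < (Ideal.absNorm p.1.asIdeal : ℝ) ^ (p.2 + 1) := by
      have := two_le_norm p.1
      have h3 : (2 : ℝ) ≤ (Ideal.absNorm p.1.asIdeal : ℝ) := by exact_mod_cast this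
      positivity
    have h4 : (Ideal.absNorm p.1.asIdeal : ℝ) ^ (p.2 + 1) ≤ x := hp
    linarith
  · have h5 := h1.tendsto_cofinite_zero
    have hc : 0 < Real.log 2 * Real.exp (-(2 * Real.log x + 0)) := by
      have := Real.log_pos (show (1 : ℝ) < 2 by norm_num)
      positivity
    have h6 := h5.eventually (gt_mem_nhds hc)
    rw [Filter.eventually_cofinite] at h6
    refine h6.subset fun p hp => ?_
    have hp' : (Ideal.absNorm p.1.asIdeal : ℝ) ^ (p.2 + 1) ≤ x := hp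
    have h7 := two_le_norm p.1
    have h8 : (2 : ℝ) ≤ (Ideal.absNorm p.1.asIdeal : ℝ) := by exact_mod_cast h7
    have h9 : lE M p ≤ Real.log x := by
      have e : lE M p = Real.log ((Ideal.absNorm p.1.asIdeal : ℝ) ^ (p.2 + 1)) := by
        rw [Real.log_pow]
        unfold lE
        push_cast
        ring
      rw [e]
      exact Real.log_le_log (by positivity) hp'
    have h10 : Real.log 2 ≤ Real.log (Ideal.absNorm p.1.asIdeal) := Real.log_le_log (by norm_num) h8
    have h11 := lE_nonneg p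
    show ¬ bE M p * Real.exp (-(1 * lE M p)) < Real.log 2 * Real.exp (-(2 * Real.log x + 0))
    rw [not_lt]
    have e2 : bE M p * Real.exp (-(1 * lE M p)) =
        Real.log (Ideal.absNorm p.1.asIdeal) * Real.exp (-(lE M p / 2 + lE M p)) := by
      unfold bE
      rw [mul_assoc, ← Real.exp_add]
      congr 2
      unfold lE
      ring
    rw [e2]
    have h12 := Real.log_pos (show (1 : ℝ) < 2 by norm_num)
    refine mul_le_mul h10 (Real.exp_le_exp.2 ?_) (Real.exp_pos _).le (by linarith)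
    linarith

lemma F_eq (a u : ℝ) : F1 M a (Real.exp u) = FG (bE M) (lE M) a u := by
  unfold F1 FG
  rw [← Real.exp_half]
  congr 1
  have hterm : ∀ p : HeightOneSpectrum (𝓞 M) × ℕ,
      (Ideal.absNorm p.1.asIdeal : ℝ) ^ (p.2 + 1) = Real.exp (lE M p) := by
    intro p
    have h7 := two_le_norm p.1
    have h8 : (0 : ℝ) < (Ideal.absNorm p.1.asIdeal : ℝ) := by
      have : (2 : ℝ) ≤ (Ideal.absNorm p.1.asIdeal : ℝ) := by exact_mod_cast h7
      linarith
    unfold lE
    rw [show ((p.2 : ℝ) + 1) * Real.log (Ideal.absNorm p.1.asIdeal) =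
      ((p.2 + 1 : ℕ) : ℝ) * Real.log (Ideal.absNorm p.1.asIdeal) by push_cast; ring, Real.exp_nat_mul,
      Real.exp_log h8]
  rw [finsum_mem_eq_finite_toFinset_sum _ (fin_norm (M := M) (Real.exp u)),
    tsum_eq_sum (s := (fin_norm (M := M) (Real.exp u)).toFinset)]
  · refine Finset.sum_congr rfl fun p hp => ?_
    rw [Set.Finite.mem_toFinset] at hp
    have hp' : (Ideal.absNorm p.1.asIdeal : ℝ) ^ (p.2 + 1) ≤ Real.exp u := hp
    rw [hterm] at hp' ⊢
    have h1 : lE M p ≤ u := Real.exp_le_exp.1 hp'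
    rw [← Real.exp_half, ← Real.exp_sub, ← Real.exp_sub, Real.log_exp, max_eq_left (by linarith)]
    have e1 : Real.exp (lE M p - u) ^ a = Real.exp (-(a * (u - lE M p))) := by
      rw [← Real.exp_mul]
      congr 1
      ring
    rw [e1]
    unfold bE
    have e2 : Real.exp (-(((p.2 : ℝ) + 1) * Real.log (Ideal.absNorm p.1.asIdeal) / 2)) =
        (Real.exp (lE M p / 2))⁻¹ := by
      rw [← Real.exp_neg]
      congr 1
    rw [e2]
    ring
  · intro p hp
    rw [Set.Finite.mem_toFinset] at hp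
    have hp' : ¬ (Ideal.absNorm p.1.asIdeal : ℝ) ^ (p.2 + 1) ≤ Real.exp u := hp
    rw [hterm, Real.exp_le_exp, not_le] at hp'
    rw [max_eq_right (by linarith)]
    ring

variable {ι : Type} [Fintype ι] {E : ι → Type} [∀ i, Field (E i)] [∀ i, NumberField (E i)]

/-- the exponents as real numbers -/
def rc (r : ι → ℤ) : ι → ℝ := fun i => (r i : ℝ)

lemma RR_eq (r : ι → ℤ) (a u : ℝ) : F E r a (Real.exp u) = RR (fun i => bE (E i)) (fun i => lE (E i)) (rc r) a u := by
  unfold F RR rc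
  exact Finset.sum_congr rfl fun i _ => by rw [F_eq]

lemma low_eq (r : ι → ℤ) (a : ℝ) : low (F E r a) = lowR (fun i => bE (E i)) (fun i => lE (E i)) (rc r) a := by
  unfold low lowR
  have h : (fun u : ℝ => (RR (fun i => bE (E i)) (fun i => lE (E i)) (rc r) a u : EReal)) =
      (fun x : ℝ => (F E r a x : EReal)) ∘ Real.exp := by
    funext u
    rw [Function.comp_apply, RR_eq]
  rw [h, Filter.liminf_comp, Real.map_exp_atTop]

lemma upp_eq (r : ι → ℤ) (a : ℝ) : upp (F E r a) = uppR (fun i => bE (E i)) (fun i => lE (E i)) (rc r) a := by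
  unfold upp uppR
  have h : (fun u : ℝ => (RR (fun i => bE (E i)) (fun i => lE (E i)) (rc r) a u : EReal)) =
      (fun x : ℝ => (F E r a x : EReal)) ∘ Real.exp := by
    funext u
    rw [Function.comp_apply, RR_eq]
  rw [h, Filter.limsup_comp, Real.map_exp_atTop]

lemma rc_one : rc (fun _ : ι => 1) = e1 ι := by
  funext i
  unfold rc e1
  simp

end aux

/-- **Theorem.** -/
theorem result {ι : Type} [Fintype ι] [Nonempty ι] (E : ι → Type) [∀ i, Field (E i)] [∀ i, NumberField (E i)] :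
    (∃ Z, IsZeta E Z) ∧ ∀ Z : ι → ℂ → ℂ, IsZeta E Z →
    -- independence under the Riemann hypothesis
    ((RH Z → Independent (Ordinates Z)) ↔
      {a : ℝ | 1 / 2 < a ∧ low (F E (fun _ => 1) a) ≤ ((-W E (fun _ => 1) a : ℝ) : EReal)}.Infinite) ∧
    -- the Riemann hypothesis and independence
    List.TFAE [
      RH Z ∧ Independent (Ordinates Z),
      ∀ a : ℝ, 1 / 2 < a → low (F E (fun _ => 1) a) = ((-W E (fun _ => 1) a : ℝ) : EReal),
      {a : ℝ | 1 / 2 < a ∧ low (F E (fun _ => 1) a) = ((-W E (fun _ => 1) a : ℝ) : EReal)}.Infinite] ∧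
    -- then the limits for all products, and the products without poles
    (RH Z → Independent (Ordinates Z) → ∀ r : ι → ℤ,
      (∀ a : ℝ, 1 / 2 < a → low (F E r a) = ((-(n Z r (1 / 2) / a ^ 2) - A Z r a : ℝ) : EReal) ∧
        upp (F E r a) = ((-(n Z r (1 / 2) / a ^ 2) + A Z r a : ℝ) : EReal)) ∧
      (∀ a : ℝ, 1 / 2 < a → (Holomorphic Z r ↔
        ((-W E r a : ℝ) : EReal) ≤ low (F E r a) ∧ upp (F E r a) ≤ ((W E r a : ℝ) : EReal)))) ∧
    -- without independence
    (RH Z → ∀ r : ι → ℤ, Holomorphic Z r → ∀ a : ℝ, 1 / 2 < a → ((-W E r a : ℝ) : EReal) ≤ low (F E r a) ∧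
      upp (F E r a) ≤ ((W E r a - 2 * n Z r (1 / 2) / a ^ 2 : ℝ) : EReal)) ∧
    -- one value of `a`
    (∀ a : ℝ, 1 / 2 < a → (¬ RH Z → low (F E (fun _ => 1) a) = ⊥) ∧
      (low (F E (fun _ => 1) a) = ((-W E (fun _ => 1) a : ℝ) : EReal) ↔
        RH Z ∧ ∀ (S : Finset ℝ) (k : ℝ → ℤ), Relation (Ordinates Z) S k →
          ∏ γ ∈ S, (((a : ℂ) + γ * I) / ((a : ℂ) - γ * I)) ^ (k γ) = 1)) ∧
    -- finitely many values of `a` exclude the short relations
    (RH Z → ∀ B : Finset ℝ, (∀ a ∈ B, 1 / 2 < a ∧ low (F E (fun _ => 1) a) ≤ ((-W E (fun _ => 1) a : ℝ) : EReal)) →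
      ∀ (S : Finset ℝ) (k : ℝ → ℤ), Relation (Ordinates Z) S k → (∃ γ ∈ S, k γ ≠ 0) →
        2 * (B.card : ℤ) + 3 ≤ ∑ γ ∈ S, |k γ|) := by
  choose D hD using fun i => Pool.Agent.H293.EXN.ded (E i)
  refine ⟨⟨fun i => (hD i).cont.choose, fun i => (hD i).cont.choose_spec⟩, fun Z hZ => ?_⟩
  have hcount : ∀ i, Countable (HeightOneSpectrum (𝓞 (E i)) × ℕ) := fun i => Pool.Agent.H293.EXN.countable_idx
  have hd := fun i => Pool.Agent.H293.EXN.fdE (hD i)
  have hRH : RH Z ↔ ∀ i, Pool.Agent.H293.EXN.Hy (D i) :=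
    forall_congr' fun i => (Pool.Agent.H293.EXN.hy_iff (hD i) (hZ i)).symm
  have hO : Ordinates Z = Pool.Agent.H293.EXN.OF D := by
    ext γ
    unfold Ordinates Pool.Agent.H293.EXN.OF
    simp only [Set.mem_ofPred_eq]
    refine and_congr_right fun h0 => exists_congr fun i => ?_
    have h1 : γ ∈ {γ : ℝ | 0 < γ ∧ 0 < meromorphicOrderAt (Z i) (1 / 2 + (γ : ℂ) * I)} ↔
        γ ∈ Pool.Agent.H293.EXN.OD (D i) := by rw [Pool.Agent.H293.EXN.OD_eq (hD i) (hZ i)]
    unfold Pool.Agent.H293.EXN.OD at h1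
    simp only [Set.mem_ofPred_eq, h0, true_and] at h1
    exact h1
  have hW : ∀ (r : ι → ℤ) (a : ℝ), 1 / 2 < a → W E r a = Pool.Agent.H293.EXN.WR D (rc r) a := fun r a ha => by
    unfold W Pool.Agent.H293.EXN.WR rc
    exact Finset.sum_congr rfl fun i _ => by
      rw [Pool.Agent.H293.EXN.WD_eq (hD i) ha]
      rfl
  have hn : ∀ (r : ι → ℤ) (γ : ℝ), ((n Z r (1 / 2 + (γ : ℂ) * I) : ℤ) : ℝ) = Pool.Agent.H293.EXN.NN D (rc r) γ := by
    intro r γ
    unfold n Pool.Agent.H293.EXN.NN rc Pool.Agent.H293.EXN.mg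
    push_cast
    refine Finset.sum_congr rfl fun i _ => ?_
    rw [Pool.Agent.H293.EXN.ord_line (hD i) (hZ i) γ]
    simp
  have hn0 : ∀ r : ι → ℤ, ((n Z r (1 / 2) : ℤ) : ℝ) = Pool.Agent.H293.EXN.NN D (rc r) 0 := by
    intro r
    rw [← hn r 0, ofReal_zero, zero_mul, add_zero]
  have hA : ∀ (r : ι → ℤ) (a : ℝ), A Z r a = Pool.Agent.H293.EXN.AA (Pool.Agent.H293.EXN.NN D (rc r)) a := by
    intro r a
    unfold A Pool.Agent.H293.EXN.AA
    refine tsum_congr fun γ => ?_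
    rw [hn]
  have hbb : ∀ (r : ι → ℤ) (a : ℝ), Pool.Agent.H293.EX.bb (Pool.Agent.H293.EXN.NN D (rc r)) a 0 =
      n Z r (1 / 2) / a ^ 2 := by
    intro r a
    unfold Pool.Agent.H293.EX.bb
    rw [hn0]
    simp
  have hHol : RH Z → ∀ r : ι → ℤ, (Holomorphic Z r ↔ ∀ γ : ℝ, 0 ≤ Pool.Agent.H293.EXN.NN D (rc r) γ) := by
    intro hG r
    constructor
    · intro h γ
      have h1 : (1 / 2 + (γ : ℂ) * I) ≠ 1 := by
        intro h
        have h2 := congrArg Complex.re h
        simp at h2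
      have h2 := h (1 / 2 + (γ : ℂ) * I) (by simp) h1
      rw [← hn]
      exact_mod_cast h2
    · intro h s hs h1
      by_cases h2 : s.re = 1 / 2
      · have h3 : s = 1 / 2 + (s.im : ℂ) * I := by
          apply Complex.ext
          · simp [h2]
          · simp
        have h4 := h s.im
        rw [← hn, ← h3] at h4
        exact_mod_cast h4
      · unfold n
        refine le_of_eq (Finset.sum_eq_zero fun i _ => ?_).symm
        rw [(hD i).ord (Z i) (hZ i) s hs, if_neg h1, (hRH.1 hG) i (s - 1 / 2) (by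
          rw [sub_re]
          norm_num
          intro h5
          apply h2
          linarith)]
        simp
  have hpos : ∀ γ ∈ Ordinates Z, 0 < γ := fun γ hγ => hγ.1
  have heq : ∀ a : ℝ, 1 / 2 < a → (low (F E (fun _ => 1) a) = ((-W E (fun _ => 1) a : ℝ) : EReal) ↔
      RH Z ∧ Pool.Agent.H293.EX.Cn (Ordinates Z) a) := by
    intro a ha
    rw [low_eq, hW _ a ha, hRH, hO, rc_one]
    exact Pool.Agent.H293.EXN.low1_eq_iff hd ha
  have hle : ∀ a : ℝ, 1 / 2 < a → RH Z → (low (F E (fun _ => 1) a) ≤ ((-W E (fun _ => 1) a : ℝ) : EReal) ↔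
      Pool.Agent.H293.EX.Cn (Ordinates Z) a) := by
    intro a ha h
    rw [low_eq, hW _ a ha, hO, rc_one]
    exact Pool.Agent.H293.EXN.low1_le_iff hd (hRH.1 h) ha
  have hbot : ∀ a : ℝ, 1 / 2 < a → ¬ RH Z → low (F E (fun _ => 1) a) = ⊥ := by
    intro a ha hn
    by_contra h
    rw [low_eq, rc_one] at h
    exact hn (hRH.2 (Pool.Agent.H293.EXN.hy_of_sum hd (show 0 < a by linarith) h))
  have hinf : {a : ℝ | 1 / 2 < a}.Infinite := Set.Ioi_infinite (1 / 2 : ℝ)
  have hli : {a : ℝ | 1 / 2 < a ∧ Pool.Agent.H293.EX.Cn (Ordinates Z) a}.Infinite → Independent (Ordinates Z) := by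
    intro h
    refine Pool.Agent.H293.EX.li_of_inf hpos (h.mono fun a ha => ⟨?_, ha.2⟩)
    have := ha.1
    linarith
  refine ⟨⟨fun h => ?_, fun h hG => ?_⟩, ?_, fun hG hI r => ⟨fun a ha => ⟨?_, ?_⟩, fun a ha => ?_⟩, fun hG r hr a ha => ?_,
    fun a ha => ⟨hbot a ha, heq a ha⟩, ?_⟩
  · refine hinf.mono fun a ha => ⟨ha, ?_⟩
    by_cases hG : RH Z
    · exact ((heq a ha).2 ⟨hG, Pool.Agent.H293.EX.li_cn (h hG) a⟩).le
    · rw [hbot a ha hG]
      exact bot_le
  · exact hli (h.mono fun a ha => ⟨ha.1, (hle a ha.1 hG).1 ha.2⟩)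
  · tfae_have 1 → 2 := by
      rintro ⟨h1, h2⟩ a ha
      exact (heq a ha).2 ⟨h1, Pool.Agent.H293.EX.li_cn h2 a⟩
    tfae_have 2 → 3 := fun h => hinf.mono fun a ha => ⟨ha, h a ha⟩
    tfae_have 3 → 1 := by
      intro h
      obtain ⟨a, ha, ha2⟩ := h.nonempty
      exact ⟨((heq a ha).1 ha2).1, hli (h.mono fun b hb => ⟨hb.1, ((heq b hb.1).1 hb.2).2⟩)⟩
    tfae_finish
  · unfold Independent at hI
    rw [hO] at hI
    rw [low_eq, Pool.Agent.H293.EXN.lowR_eq hd (hRH.1 hG) (rc r) (Pool.Agent.H293.EXN.ind_of_li hI _) (by linarith),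
      hbb, hA]
  · unfold Independent at hI
    rw [hO] at hI
    rw [upp_eq, Pool.Agent.H293.EXN.uppR_eq hd (hRH.1 hG) (rc r) (Pool.Agent.H293.EXN.ind_of_li hI _) (by linarith),
      hbb, hA]
  · unfold Independent at hI
    rw [hO] at hI
    rw [hHol hG r, low_eq, upp_eq, hW r a ha]
    exact (Pool.Agent.H293.EXN.poles_iff hd (hRH.1 hG) hI (rc r) ha).symm
  · rw [hHol hG r] at hr
    have h1 := Pool.Agent.H293.EXN.bounds_of_nonneg hd (hRH.1 hG) (rc r) hr ha
    rw [low_eq, upp_eq, hW r a ha, hn0]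
    exact h1
  · intro hG B hB S k hR hk
    exact Pool.Agent.H293.EX.len_of hpos (fun a ha => ⟨by have := (hB a ha).1; linarith,
      (hle a (hB a ha).1 hG).1 (hB a ha).2⟩) hR hk

end Pool.Agent.Results.MP_347b49_nt.LowerAndUpperLimits
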