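import Pool.Agent.H367.OS.OArt
import Mathlib

/-!
# Central values and independence of zeros of Artin `L`-functions and one double sequence of Artin motives

A relation `r` of size `m` is one of the equations `x_i x_j = x_l`, `x_i + x_j = x_l`, `x_i = 1` with
`i, j, l < m`; the relations are numbered, the number of `r` is `ν(r)` (`relNum`). Let `G_m` be the
following polynomial with integral coefficients (`univG ℤ m`). There are variables `x_i` and `z_ij` for
`i, j < m`, a variable `c_r` for every relation `r`, and variables `y_{r,l}` for all relations `r` and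
`l < (m + 1) 2 ^ ν(r)`. The equations (`eqnG`) are

  `z_ij - x_i x_j`,  `c_r ^ 2 - c_r`,  `c_r ρ_r`,  `(1 - c_r) y_{r,l}`,

where `ρ_r` is the linear polynomial `z_ij - x_l`, `x_i + x_j - x_l` or `x_i - 1` of the relation.
`G_m` is the sum of the equations multiplied by further variables `t_e`, one for each equation. It has
degree three. Let `C_m` be the affine cubic hypersurface `G_m = 1` (`cubG R m` over the ring `R`); it is
smooth over the integers.

Let `M` be the category of motives over `ℚ` in the sense of André, a semisimple abelian category with
Tate twists `N ↦ N(a)`. For a separated scheme `X` of finite type over `ℚ` let `D.G w j X = Gr^W_w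
H^j_c(X)` be the part of weight `w` of the cohomology with compact supports, a motive over `ℚ`; for
smooth projective `Y` it is `h^j(Y)` if `j = w`, and zero otherwise. The motives `h^0(Y)` and their
direct factors are the Artin motives over `ℚ` (representations of `Gal(ℚ̄/ℚ)` over `ℚ` with finite
image).

Let `E_m` be the number of the equations, and for `N ∈ ℕ` let `e = (m + 1) N + E_m - 1`
(`esh m N`). Let `V_{m,N}` be the
motive `Gr^W_{2e} H^{2e+1}_c(C_m)(e)` (`single0 D m N`).

The type `I` consists of the irreducible complex characters of the finite quotients of `Gal(ℚ̄/ℚ)`,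
and `occ χ N` says that `χ` occurs in `N ⊗ ℂ`. For a finite Galois extension `L` of `ℚ` let `irr L` be
the set of the irreducible characters of `Gal(L/ℚ)`. These are the characters that occur in `h^0(Spec
L)`. The characters which occur in `h^0(Y)` are characters of `Gal(L/ℚ)` if `L` contains the fields of
constants of the connected components of `Y` (`ArtinMotives`). Let `mult χ γ` be the multiplicity of
the zero `1/2 + i γ` of `L(s, χ)`, let `triv` be the trivial character, and `sympl χ` mean that `χ` is
symplectic. `Independent mult S` says that the multiset of the `γ > 0` with `L(1/2 + i γ, χ) = 0` for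
the `χ` in `S` is linearly independent over `ℚ`. `Holds mult triv sympl c S` are the three statements
of the question, with the constant `c`, for the `χ` in `S`. So question Q1 is: there is a `c` such
that `Holds mult triv sympl c (irr L)` for all finite Galois extensions `L` of `ℚ`.

**Theorem.** (1) For all `m ≥ 1` and `N` the motive `V_{m,N}` is an Artin motive: the characters that
occur in it are characters of `Gal(L/ℚ)` for one finite Galois extension `L` of `ℚ`. For every finite
Galois extension `L` of `ℚ` and all large `m` there is an `N` such that all irreducible characters of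
`Gal(L/ℚ)` occur in `V_{m,N}`.

(2) Question Q1 has a positive answer if and only if there is a constant `c` such that, for infinitely
many `m`, the three statements with the constant `c` are true for the irreducible characters which occur
in `V_{m,N}`, for all `N`. The same for each given constant `c`.

(3) For every `c` and `L` and all large `m` there is an `N` such that the three statements for the
characters in the single motive `V_{m,N}` imply the three statements for `L`.

(4) `G_m` has integral coefficients and degree at most three, and `C_m` is smooth over all rings.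

The hypotheses on the motives are standard (`IsMot`): exact sequences, affine bundles, disjoint unions,
the cohomology of affine spaces, the weights of `H^j_c(X)` are between `0` and `2 dim X`, monomorphisms
split, `Gr^W_w H^j_c(X)` is a direct factor of `h^w(Y)` for some smooth projective `Y` (it is a
subquotient, by the weight spectral sequence), and every smooth projective scheme has an affine bundle
whose total space is affine (Jouanolou).

Idea of the proof. The projection of `C_m` to the affine space with the coordinates `x, z, c, y` is an
affine bundle over the complement of the zero set `W_m` of the equations. The scheme `W_m` is the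
disjoint union, over all sets `s` of relations (`c_r = 1` for `r ∈ s` and `c_r = 0` for the others), of
the products `X_s × 𝔸 ^ ((m + 1) N(s))`, where `X_s` is the affine scheme defined by the relations in
`s` and `N(s) = ∑_{r ∈ s} 2 ^ ν(r)`. The numbers `N(s)` are different, and the dimension of `X_s` is at
most `m`. So the invariant of `W_m` with the index `q + (m + 1) N(s)`, `0 ≤ q ≤ m`, is the invariant of
`X_s` with the index `q`; the other components do not contribute. Every affine scheme of finite type
over a prime field is an `X_s`, for all large `m`.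

The universal system of relations is the one of helper854 (`Pool.Agent.H854.SQ`).
-/

set_option autoImplicit false

open CategoryTheory CategoryTheory.Limits AlgebraicGeometry Pool.Agent.Y116.UV Pool.Agent.Z125.UN
  Pool.Agent.Q193.LT Pool.Agent.H854.SQ Pool.Agent.H367.OS

universe w v u



namespace Pool.Agent.Results.MP_347b49_nt.PiecesOfOneSequence

/-- The zeros: `mult χ γ` is the multiplicity of the zero `1/2 + i γ` of `L(s, χ)`. The multiset of the
positive `γ`, for all `χ` in the set `S`, is linearly independent over `ℚ`: no value occurs twice, and the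
set of the values is linearly independent. -/
def Independent {I : Type w} (mult : I → ℝ → ℕ) (S : Set I) : Prop :=
  (∀ χ ∈ S, ∀ γ : ℝ, 0 < γ → mult χ γ ≤ 1) ∧
    (∀ χ ∈ S, ∀ χ' ∈ S, ∀ γ : ℝ, 0 < γ → 0 < mult χ γ → 0 < mult χ' γ → χ = χ') ∧
    LinearIndepOn ℚ id {γ : ℝ | 0 < γ ∧ ∃ χ ∈ S, 0 < mult χ γ}

lemma Independent.mono {I : Type w} {mult : I → ℝ → ℕ} {S T : Set I} (h : S ⊆ T)
    (hT : Independent mult T) : Independent mult S :=
  ⟨fun χ hχ => hT.1 χ (h hχ), fun χ hχ χ' hχ' => hT.2.1 χ (h hχ) χ' (h hχ'),
    hT.2.2.mono fun _ hγ => ⟨hγ.1, hγ.2.imp fun _ hχ => ⟨h hχ.1, hχ.2⟩⟩⟩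

/-- The three statements of the question, with the constant `c`, for the characters in `S`. -/
def Holds {I : Type w} (mult : I → ℝ → ℕ) (triv : I) (sympl : I → Prop) (c : ℕ) (S : Set I) : Prop :=
  Independent mult S ∧ (∀ χ ∈ S, χ ≠ triv → ¬ sympl χ → mult χ 0 = 0) ∧
    ∀ χ ∈ S, sympl χ → mult χ 0 ≤ c

lemma Holds.mono {I : Type w} {mult : I → ℝ → ℕ} {triv : I} {sympl : I → Prop} {c : ℕ}
    {S T : Set I} (h : S ⊆ T) (hT : Holds mult triv sympl c T) : Holds mult triv sympl c S :=
  ⟨Independent.mono h hT.1, fun χ hχ => hT.2.1 χ (h hχ), fun χ hχ => hT.2.2 χ (h hχ)⟩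

/-- **Central values and independence of zeros of Artin `L`-functions and one double sequence of Artin
motives.** See the explanations above. -/
theorem result {M : Type u} [Category.{v} M] [Abelian M] {D : Pieces ℚ M} (h : IsMot D) {I : Type w}
    {occ : I → M → Prop} {irr : ∀ (L : Type) [Field L] [NumberField L], Set I}
    (ha : ArtinMotives D occ irr) (mult : I → ℝ → ℕ) (triv : I) (sympl : I → Prop) :
    ((∀ m, 1 ≤ m → ∀ N : ℕ, ∃ (L : Type) (_ : Field L) (_ : NumberField L),
        IsGalois ℚ L ∧ {χ | occ χ (single0 D m N)} ⊆ irr L) ∧
      ∀ (L : Type) [Field L] [NumberField L] [IsGalois ℚ L], ∀ᶠ m in Filter.atTop, ∃ N : ℕ,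
        irr L ⊆ {χ | occ χ (single0 D m N)}) ∧
    ((∃ c : ℕ, ∀ (L : Type) [Field L] [NumberField L] [IsGalois ℚ L],
        Holds mult triv sympl c (irr L)) ↔
      ∃ c : ℕ, ∃ᶠ m in Filter.atTop, ∀ N : ℕ,
        Holds mult triv sympl c {χ | occ χ (single0 D m N)}) ∧
    (∀ c : ℕ, (∀ (L : Type) [Field L] [NumberField L] [IsGalois ℚ L],
        Holds mult triv sympl c (irr L)) ↔
      ∃ᶠ m in Filter.atTop, ∀ N : ℕ, Holds mult triv sympl c {χ | occ χ (single0 D m N)}) ∧
    (∀ (c : ℕ) (L : Type) [Field L] [NumberField L] [IsGalois ℚ L], ∀ᶠ m in Filter.atTop,
      ∃ N : ℕ, Holds mult triv sympl c {χ | occ χ (single0 D m N)} →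
        Holds mult triv sympl c (irr L)) ∧
    ∀ m : ℕ, (univG ℤ m).totalDegree ≤ 3 ∧
      ∀ (R : Type) [CommRing R], MvPolynomial.map (Int.castRingHom R) (univG ℤ m) = univG R m ∧
        Smooth (cubG R m).hom := by
  have h0 := fun c => artin_decides h ha (P := Holds mult triv sympl c) fun S T hST hT =>
    Holds.mono hST hT
  refine ⟨⟨(h0 0).2.2, (h0 0).2.1⟩, exists_congr fun c => (h0 c).1, fun c => (h0 c).1,
    fun c L _ _ _ => ?_, cubG_facts⟩
  filter_upwards [(h0 c).2.1 L] with m hm
  obtain ⟨N, hN⟩ := hm
  exact ⟨N, fun g => Holds.mono hN g⟩

end Pool.Agent.Results.MP_347b49_nt.PiecesOfOneSequence
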