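import Pool.Agent.H474.SHP.QuoA

/-!
# Zeros and poles of products of degree zero of Artin L-functions: an absolute constant

Let `F/ℚ` be an arbitrary finite Galois extension, let `χ_1, …, χ_k` be irreducible characters of
its group and let `t_1, …, t_k` be real numbers such that the pairs `(χ_i, t_i)` are different.  Let
`L_i` be the meromorphic continuation of the Artin L-function `L(s, χ_i, F/ℚ)` and let `n_i` be
integers, not all zero, with `∑ n_i χ_i(1) = 0`.  Then for every `ε > 0` and all large `T` the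
function `∏ L_i(s + i t_i)^(n_i)` has at least

`(1/24 - ε) (T/2π) log T`

zeros and at least as many poles (with multiplicity) in `0 < Re s < 1`, `T < Im s ≤ 2T`.  The
constant `1/24` is absolute, it depends neither on `F` nor on the characters, the shifts and the
exponents.  For `k = 2`, `χ_1(1) = χ_2(1)`: `L(s, χ_1)/L(s, χ_2)` has so many zeros and poles, the
divisors of two different Artin L-functions of the same degree differ by an absolute positive
proportion of the number of zeros of `ζ(s)`.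
-/

open NumberField Filter Complex
open Pool.Agent.Q92.AR (artinL)
open Pool.Agent.H541R3.ART (Irr)

namespace Pool.Agent.Results.MP_347b49_nt.QuotientsAbsolute

/-- `L` is the meromorphic continuation to `ℂ` of the Artin L-function of the character `χ` of
`Gal(F/ℚ)` (without the Euler factors at the primes which ramify in `F`). -/
def IsArtinL (F : Type) [Field F] [NumberField F] (χ : (F ≃ₐ[ℚ] F) → ℂ) (L : ℂ → ℂ) : Prop :=
  MeromorphicOn L Set.univ ∧ ∀ s : ℂ, 1 < s.re → L s = artinL F χ s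

/-- The number of zeros of the meromorphic function `Q` in `S`, counted with multiplicity. -/
noncomputable def zeros (Q : ℂ → ℂ) (S : Set ℂ) : ℕ :=
  ∑ᶠ s ∈ S, (meromorphicOrderAt Q s).untop₀.toNat

/-- The number of poles of the meromorphic function `Q` in `S`, counted with multiplicity. -/
noncomputable def poles (Q : ℂ → ℂ) (S : Set ℂ) : ℕ :=
  ∑ᶠ s ∈ S, (-(meromorphicOrderAt Q s).untop₀).toNat

/-- The part of the open critical strip with `T < Im s ≤ 2T`. -/
def Rect (T : ℝ) : Set ℂ := {s : ℂ | 0 < s.re ∧ s.re < 1 ∧ T < s.im ∧ s.im ≤ 2 * T}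

/-- **Main theorem.** -/
theorem result (F : Type) [Field F] [NumberField F] [IsGalois ℚ F] :
    (∀ χ ∈ Irr (F ≃ₐ[ℚ] F), ∃ L : ℂ → ℂ, IsArtinL F χ L) ∧
    ∀ (k : ℕ) (χ : Fin k → (F ≃ₐ[ℚ] F) → ℂ) (t : Fin k → ℝ) (L : Fin k → ℂ → ℂ),
      (∀ i, χ i ∈ Irr (F ≃ₐ[ℚ] F)) → (∀ i j, i ≠ j → χ i ≠ χ j ∨ t i ≠ t j) →
      (∀ i, IsArtinL F (χ i) (L i)) →
      ∀ n : Fin k → ℤ, n ≠ 0 → ∑ i, (n i : ℂ) * χ i 1 = 0 →
        ∀ ε : ℝ, 0 < ε → ∀ᶠ T : ℝ in atTop,
          (1 / 24 - ε) * (T / (2 * Real.pi) * Real.log T) ≤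
            (zeros (fun s => ∏ i, L i (s + I * t i) ^ n i) (Rect T) : ℝ) ∧
          (1 / 24 - ε) * (T / (2 * Real.pi) * Real.log T) ≤
            (poles (fun s => ∏ i, L i (s + I * t i) ^ n i) (Rect T) : ℝ) := by
  refine ⟨fun χ hχ => ?_, fun k χ t L hχ hne hL n hn hn0 ε hε => ?_⟩
  · obtain ⟨κ, hκ, m, d, a, G, hD⟩ := Pool.Agent.H474.ART.exists_BD hχ
    exact hD.ex
  · exact Pool.Agent.H474.SHP.quoA χ hχ t hne L hL n hn hn0 hε

end Pool.Agent.Results.MP_347b49_nt.QuotientsAbsolute
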